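import Mathlib

/-!
# Strong colourings modulo a prime: the algebraic step

`dd` is the sum of all partial derivatives (the derivative along translations).  The key lemma
`step` says: if `D` is a linear functional which kills the derivatives of the polynomials of degree
at most `m` in every variable, and `D (P * Q) ≠ 0` for translation invariant `P`, `Q`, then
`D (P * (X u - X v) * Q') ≠ 0` for some translation invariant `Q'` of smaller degree in `u` and
`v`, provided that the degrees of `P` in `u` and `v` are not too large with respect to the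
characteristic.
-/

set_option autoImplicit false

namespace Pool.Agent.H13.SC

open MvPolynomial

variable {V : Type*} {F : Type*} [Field F]

/-- The sum of all partial derivatives. -/
noncomputable def dd : Derivation F (MvPolynomial V F) (MvPolynomial V F) :=
  mkDerivation F (fun _ : V => (1 : MvPolynomial V F))

theorem dd_X (v : V) : dd (X v : MvPolynomial V F) = 1 := by
  simp [dd]

theorem dd_X_sub (u v : V) : dd (X u - X v : MvPolynomial V F) = 0 := by
  rw [map_sub, dd_X, dd_X, sub_self]

theorem dd_mul (P Q : MvPolynomial V F) : dd (P * Q) = P * dd Q + dd P * Q := by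
  rw [Derivation.leibniz, smul_eq_mul, smul_eq_mul]
  ring

theorem dd_mul_eq_zero {P Q : MvPolynomial V F} (hP : dd P = 0) (hQ : dd Q = 0) :
    dd (P * Q) = 0 := by
  rw [dd_mul, hP, hQ, mul_zero, zero_mul, add_zero]

theorem dd_C_mul (a : F) (Q : MvPolynomial V F) : dd (C a * Q) = C a * dd Q := by
  rw [dd_mul]
  have : dd (C a : MvPolynomial V F) = 0 := derivation_C (dd : Derivation F (MvPolynomial V F) (MvPolynomial V F)) a
  rw [this, zero_mul, add_zero]

theorem dd_pderiv (v : V) (Q : MvPolynomial V F) :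
    dd (pderiv v Q) = pderiv v (dd Q : MvPolynomial V F) := by
  classical
  have h : ⁅(dd : Derivation F (MvPolynomial V F) (MvPolynomial V F)),
      (pderiv v : Derivation F (MvPolynomial V F) (MvPolynomial V F))⁆ = 0 := by
    apply MvPolynomial.derivation_ext
    intro i
    rw [Derivation.commutator_apply, dd_X]
    simp only [pderiv_X, Derivation.map_one_eq_zero, sub_zero, Derivation.coe_zero, Pi.zero_apply]
    by_cases hi : i = v
    · subst hi
      simp
    · simp [hi]
  have h2 := congrArg (fun E : Derivation F (MvPolynomial V F) (MvPolynomial V F) => E Q) h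
  simp only [Derivation.commutator_apply, Derivation.coe_zero, Pi.zero_apply] at h2
  exact sub_eq_zero.1 h2

/-! ## Degrees -/

theorem degreeOf_sum_le' {κ : Type*} (w : V) (s : Finset κ) (f : κ → MvPolynomial V F) (n : ℕ)
    (h : ∀ j ∈ s, degreeOf w (f j) ≤ n) : degreeOf w (∑ j ∈ s, f j) ≤ n :=
  (degreeOf_sum_le w s f).trans (Finset.sup_le h)

theorem degreeOf_linear (w v : V) (T : MvPolynomial V F →ₗ[F] MvPolynomial V F) (n n' : ℕ)
    (h : ∀ (s : V →₀ ℕ) (c : F), s v ≤ n → degreeOf w (T (monomial s c)) ≤ n')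
    (Q : MvPolynomial V F) (hQ : degreeOf v Q ≤ n) : degreeOf w (T Q) ≤ n' := by
  rw [← MvPolynomial.support_sum_monomial_coeff Q, map_sum]
  apply degreeOf_sum_le'
  intro s hs
  exact h s _ (degreeOf_le_iff.1 hQ s hs)

theorem degreeOf_monomial_le (w : V) (s : V →₀ ℕ) (c : F) : degreeOf w (monomial s c) ≤ s w := by
  by_cases hc : c = 0
  · simp [hc]
  · rw [degreeOf_monomial_eq s w hc]

theorem degreeOf_dd_le (w : V) (Q : MvPolynomial V F) : degreeOf w (dd Q) ≤ degreeOf w Q := by
  classical
  refine degreeOf_linear w w dd.toLinearMap _ _ ?_ Q le_rfl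
  intro s c hs
  change degreeOf w (dd (monomial s c)) ≤ _
  rw [dd, mkDerivation_monomial, smul_eq_C_mul]
  refine (degreeOf_C_mul_le _ _ _).trans ?_
  rw [Finsupp.sum]
  apply degreeOf_sum_le'
  intro i _
  rw [smul_eq_mul, mul_one]
  refine (degreeOf_monomial_le _ _ _).trans ?_
  rw [Finsupp.tsub_apply]
  omega

/-! ## The polarisation operators -/

/-- The operator replacing one `v` by `u` in a form of degree `b` in `v`. -/
noncomputable def EE (u v : V) (b : ℕ) : MvPolynomial V F →ₗ[F] MvPolynomial V F where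
  toFun Q := C (b : F) * Q + (X u - X v) * pderiv v Q
  map_add' P Q := by rw [map_add]; ring
  map_smul' a Q := by
    rw [Derivation.map_smul, RingHom.id_apply, smul_eq_C_mul, smul_eq_C_mul, smul_eq_C_mul]
    ring

theorem EE_apply (u v : V) (b : ℕ) (Q : MvPolynomial V F) :
    EE u v b Q = C (b : F) * Q + (X u - X v) * pderiv v Q := rfl

theorem dd_EE (u v : V) (b : ℕ) (Q : MvPolynomial V F) : dd (EE u v b Q) = EE u v b (dd Q) := by
  rw [EE_apply, EE_apply, map_add, dd_C_mul, dd_mul, dd_X_sub, zero_mul, add_zero, dd_pderiv]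

theorem EE_monomial (u v : V) (b : ℕ) (s : V →₀ ℕ) (c : F) :
    EE u v b (monomial s c) = C ((b : F) - (s v : F)) * monomial s c +
      X u * monomial (s - Finsupp.single v 1) (c * s v) := by
  have h := X_mul_pderiv_monomial (i := v) (m := s) (r := c)
  rw [EE_apply, sub_mul, h, pderiv_monomial, map_sub, nsmul_eq_mul]
  have h2 : (C (s v : F) : MvPolynomial V F) = (s v : MvPolynomial V F) := by simp
  rw [h2]
  ring

theorem degreeOf_EE (u v w : V) (b : ℕ) (Q : MvPolynomial V F) [DecidableEq V] :
    degreeOf w (EE u v b Q) ≤ degreeOf w Q + if w = u then 1 else 0 := by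
  refine degreeOf_linear w w (EE u v b) _ _ ?_ Q le_rfl
  intro s c hs
  rw [EE_monomial]
  refine (degreeOf_add_le _ _ _).trans (max_le ?_ ?_)
  · refine (degreeOf_C_mul_le _ _ _).trans ((degreeOf_monomial_le _ _ _).trans ?_)
    omega
  · refine (degreeOf_mul_le _ _ _).trans ?_
    have h1 := degreeOf_monomial_le (F := F) w (s - Finsupp.single v 1) (c * s v)
    rw [Finsupp.tsub_apply] at h1
    rw [degreeOf_X]
    split_ifs with hw <;> omega

theorem degreeOf_EE_self (u v : V) (huv : u ≠ v) (b : ℕ) (Q : MvPolynomial V F)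
    (hQ : degreeOf v Q ≤ b) : degreeOf v (EE u v b Q) ≤ b - 1 := by
  classical
  refine degreeOf_linear v v (EE u v b) b _ ?_ Q hQ
  intro s c hs
  rw [EE_monomial]
  refine (degreeOf_add_le _ _ _).trans (max_le ?_ ?_)
  · rcases eq_or_lt_of_le hs with h | h
    · rw [h, sub_self, C_0, zero_mul, degreeOf_zero]
      exact Nat.zero_le _
    · refine (degreeOf_C_mul_le _ _ _).trans ((degreeOf_monomial_le _ _ _).trans ?_)
      omega
  · refine (degreeOf_mul_le _ _ _).trans ?_
    have h1 := degreeOf_monomial_le (F := F) v (s - Finsupp.single v 1) (c * s v)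
    rw [Finsupp.tsub_apply, Finsupp.single_eq_same] at h1
    rw [degreeOf_X, if_neg huv.symm]
    omega

/-- Iterated polarisation. -/
noncomputable def EEs (u v : V) : ℕ → ℕ → MvPolynomial V F → MvPolynomial V F
  | _, 0, Q => Q
  | b, s + 1, Q => EEs u v (b - 1) s (EE u v b Q)

theorem EEs_zero (u v : V) (b : ℕ) (Q : MvPolynomial V F) : EEs u v b 0 Q = Q := rfl

theorem EEs_succ (u v : V) (b s : ℕ) (Q : MvPolynomial V F) :
    EEs u v b (s + 1) Q = EEs u v (b - 1) s (EE u v b Q) := rfl

theorem dd_EEs (u v : V) (b s : ℕ) (Q : MvPolynomial V F) :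
    dd (EEs u v b s Q) = EEs u v b s (dd Q) := by
  induction s generalizing b Q with
  | zero => rfl
  | succ s ih => rw [EEs_succ, EEs_succ, ih, dd_EE]

theorem EEs_map_zero (u v : V) (b s : ℕ) : EEs u v b s (0 : MvPolynomial V F) = 0 := by
  induction s generalizing b with
  | zero => rfl
  | succ s ih => rw [EEs_succ, map_zero, ih]

theorem degreeOf_EEs (u v w : V) (b s : ℕ) (Q : MvPolynomial V F) [DecidableEq V] :
    degreeOf w (EEs u v b s Q) ≤ degreeOf w Q + if w = u then s else 0 := by
  induction s generalizing b Q with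
  | zero => simp [EEs_zero]
  | succ s ih =>
    rw [EEs_succ]
    refine (ih _ _).trans ?_
    have := degreeOf_EE u v w b Q
    split_ifs at this ⊢ <;> omega

theorem degreeOf_EEs_self (u v : V) (huv : u ≠ v) (b s : ℕ) (Q : MvPolynomial V F)
    (hQ : degreeOf v Q ≤ b) : degreeOf v (EEs u v b s Q) ≤ b - s := by
  induction s generalizing b Q with
  | zero => simpa [EEs_zero] using hQ
  | succ s ih =>
    rw [EEs_succ]
    refine (ih (b - 1) _ (degreeOf_EE_self u v huv b Q hQ)).trans ?_
    omega

theorem EEs_mod (u v : V) (b s : ℕ) (Q : MvPolynomial V F) :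
    ∃ Y : MvPolynomial V F,
      EEs u v b s Q = C ((b.descFactorial s : ℕ) : F) * Q + (X u - X v) * Y := by
  induction s generalizing b Q with
  | zero => exact ⟨0, by simp [EEs_zero]⟩
  | succ s ih =>
    obtain ⟨Y, hY⟩ := ih (b - 1) (EE u v b Q)
    rw [EEs_succ, hY, EE_apply]
    refine ⟨C (((b - 1).descFactorial s : ℕ) : F) * pderiv v Q + Y, ?_⟩
    have h1 : ((b.descFactorial (s + 1) : ℕ) : F) = (((b - 1).descFactorial s : ℕ) : F) * (b : F) := by
      rcases b with _ | b
      · simp
      · rw [Nat.succ_descFactorial_succ, Nat.cast_mul, Nat.add_sub_cancel, mul_comm]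
    rw [h1, C_mul]
    ring

/-! ## Exactness -/

theorem degreeOf_linear' (w : V) (T : MvPolynomial V F →ₗ[F] MvPolynomial V F) (n' : ℕ)
    (Q : MvPolynomial V F)
    (h : ∀ s ∈ Q.support, ∀ c : F, degreeOf w (T (monomial s c)) ≤ n') :
    degreeOf w (T Q) ≤ n' := by
  rw [← MvPolynomial.support_sum_monomial_coeff Q, map_sum]
  apply degreeOf_sum_le'
  intro s hs
  exact h s hs _

/-- The `n`-th iterate of `pderiv`. -/
noncomputable def pds (u : V) (n : ℕ) : MvPolynomial V F →ₗ[F] MvPolynomial V F :=
  ((pderiv u : Derivation F (MvPolynomial V F) (MvPolynomial V F)).toLinearMap) ^ n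

theorem pds_succ (u : V) (n : ℕ) (Q : MvPolynomial V F) :
    pds u (n + 1) Q = pderiv u (pds u n Q) := by
  rw [pds, pow_succ', Module.End.mul_apply]
  rfl

theorem dd_pds (u : V) (n : ℕ) (Q : MvPolynomial V F) (hQ : dd Q = 0) : dd (pds u n Q) = 0 := by
  induction n with
  | zero => simpa [pds] using hQ
  | succ n ih => rw [pds_succ, dd_pderiv, ih, map_zero]

theorem pds_monomial (u : V) (n : ℕ) (s : V →₀ ℕ) (c : F) :
    pds u n (monomial s c) =
      monomial (s - Finsupp.single u n) (c * (((s u).descFactorial n : ℕ) : F)) := by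
  induction n with
  | zero => simp [pds]
  | succ n ih =>
    rw [pds_succ, ih, pderiv_monomial, tsub_tsub, ← Finsupp.single_add, Nat.descFactorial_succ,
      Finsupp.tsub_apply, Finsupp.single_eq_same, mul_assoc, ← Nat.cast_mul,
      mul_comm (Nat.descFactorial _ _)]

/-- The homotopy. -/
noncomputable def hom (p : ℕ) (u : V) : MvPolynomial V F →ₗ[F] MvPolynomial V F :=
  LinearMap.mulLeft F (X u) + (LinearMap.mulLeft F (X u ^ p)).comp (pds u (p - 1))

theorem hom_apply (p : ℕ) (u : V) (Q : MvPolynomial V F) :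
    hom p u Q = X u * Q + X u ^ p * pds u (p - 1) Q := rfl

theorem dd_hom (p : ℕ) [CharP F p] (u : V) (Q : MvPolynomial V F) (hQ : dd Q = 0) :
    dd (hom p u Q) = Q := by
  have h1 : dd (X u ^ p : MvPolynomial V F) = 0 := by
    rw [Derivation.leibniz_pow, ← Nat.cast_smul_eq_nsmul F, CharP.cast_eq_zero, zero_smul]
  rw [hom_apply, map_add, dd_mul, dd_mul, hQ, dd_X, dd_pds u _ Q hQ, h1]
  ring

theorem hom_monomial (p : ℕ) [hp : Fact p.Prime] [CharP F p] (u : V) (s : V →₀ ℕ) (c : F)
    (hs : s u ≤ p - 1) :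
    hom p u (monomial s c) = if s u = p - 1 then 0 else monomial (s + Finsupp.single u 1) c := by
  have hp0 : 0 < p := hp.out.pos
  rw [hom_apply, pds_monomial]
  split_ifs with h
  · rw [h, Nat.descFactorial_self]
    have hw : (((p - 1).factorial : ℕ) : F) = -1 := by
      have h1 := ZMod.wilsons_lemma p
      have h2 := congrArg (ZMod.castHom (dvd_refl p) F) h1
      rw [map_natCast, map_neg, map_one] at h2
      exact h2
    rw [hw, mul_neg, mul_one, X_pow_eq_monomial, monomial_mul, X, monomial_mul]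
    have h3 : Finsupp.single u p + (s - Finsupp.single u (p - 1)) = Finsupp.single u 1 + s := by
      ext w
      by_cases hw : w = u
      · subst hw
        simp only [Finsupp.add_apply, Finsupp.tsub_apply, Finsupp.single_eq_same]
        omega
      · simp [Ne.symm hw]
    rw [h3, ← map_add]
    simp
  · have h4 : s u < p - 1 := lt_of_le_of_ne hs h
    rw [Nat.descFactorial_of_lt h4, Nat.cast_zero, mul_zero, map_zero, mul_zero, add_zero, X,
      monomial_mul, one_mul, add_comm]

theorem exact (p : ℕ) [hp : Fact p.Prime] [CharP F p] (u : V) (Q : MvPolynomial V F)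
    (hQ : dd Q = 0) (hd : degreeOf u Q ≤ p - 1) :
    ∃ Z : MvPolynomial V F, dd Z = Q ∧ degreeOf u Z ≤ p - 1 ∧
      ∀ w, w ≠ u → degreeOf w Z ≤ degreeOf w Q := by
  refine ⟨hom p u Q, dd_hom p u Q hQ, ?_, ?_⟩
  · apply degreeOf_linear'
    intro s hs c
    have h1 := degreeOf_le_iff.1 hd s hs
    rw [hom_monomial p u s c h1]
    split_ifs with h
    · rw [degreeOf_zero]; exact Nat.zero_le _
    · refine (degreeOf_monomial_le _ _ _).trans ?_
      rw [Finsupp.add_apply, Finsupp.single_eq_same]
      omega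
  · intro w hw
    apply degreeOf_linear'
    intro s hs c
    have h1 := degreeOf_le_iff.1 hd s hs
    have h2 := degreeOf_le_iff.1 (le_refl (degreeOf w Q)) s hs
    rw [hom_monomial p u s c h1]
    split_ifs with h
    · rw [degreeOf_zero]; exact Nat.zero_le _
    · refine (degreeOf_monomial_le _ _ _).trans ?_
      rw [Finsupp.add_apply, Finsupp.single_eq_of_ne hw]
      omega

/-! ## Dividing by `X u - X v` -/

theorem X_sub_ne_zero (u v : V) (huv : u ≠ v) : (X u - X v : MvPolynomial V F) ≠ 0 := by
  intro h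
  exact huv (X_injective (sub_eq_zero.1 h))

theorem le_degreeOf_X_sub (u v w : V) (huv : u ≠ v) [DecidableEq V] :
    (if w = u then 1 else 0) + (if w = v then 1 else 0) ≤
      degreeOf w (X u - X v : MvPolynomial V F) := by
  have hsupp : ∀ z : V, (z = u ∨ z = v) →
      Finsupp.single z 1 ∈ (X u - X v : MvPolynomial V F).support := by
    intro z hz
    rw [mem_support_iff, coeff_sub, coeff_X, coeff_X]
    rcases hz with hz | hz
    · subst hz
      rw [if_pos rfl, if_neg]
      · simp
      · intro h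
        exact huv (Finsupp.single_left_injective one_ne_zero h).symm
    · subst hz
      rw [if_pos rfl, if_neg]
      · simp
      · intro h
        exact huv (Finsupp.single_left_injective one_ne_zero h)
  have hle : ∀ z : V, (z = u ∨ z = v) → 1 ≤ degreeOf z (X u - X v : MvPolynomial V F) := by
    intro z hz
    have := degreeOf_le_iff.1 (le_refl (degreeOf z (X u - X v : MvPolynomial V F))) _ (hsupp z hz)
    rwa [Finsupp.single_eq_same] at this
  by_cases h1 : w = u
  · have h2 : w ≠ v := fun h => huv (h1.symm.trans h)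
    rw [if_pos h1, if_neg h2]
    exact hle w (Or.inl h1)
  · by_cases h2 : w = v
    · rw [if_neg h1, if_pos h2]
      exact hle w (Or.inr h2)
    · rw [if_neg h1, if_neg h2]
      exact Nat.zero_le _

theorem degreeOf_div (u v w : V) (huv : u ≠ v) (Y : MvPolynomial V F) (hY : Y ≠ 0)
    [DecidableEq V] :
    degreeOf w Y + (if w = u then 1 else 0) + (if w = v then 1 else 0) ≤
      degreeOf w ((X u - X v) * Y) := by
  rw [degreeOf_mul_eq (X_sub_ne_zero u v huv) hY]
  have := le_degreeOf_X_sub (F := F) u v w huv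
  omega

theorem descFactorial_cast_ne_zero (p : ℕ) [hp : Fact p.Prime] [CharP F p] (b s : ℕ)
    (hb : b ≤ p - 1) (hs : s ≤ b) : ((b.descFactorial s : ℕ) : F) ≠ 0 := by
  intro h
  rw [CharP.cast_eq_zero_iff F p] at h
  have h1 : b.descFactorial s ∣ b.factorial := ⟨(b - s).factorial, by
    rw [mul_comm, Nat.factorial_mul_descFactorial hs]⟩
  have h2 := (hp.out.dvd_factorial).1 (h.trans h1)
  have := hp.out.pos
  omega

/-- **The key step.** -/
theorem step (p : ℕ) [hp : Fact p.Prime] [CharP F p] [DecidableEq V] (m : ℕ) (hm : m + 2 ≤ p)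
    (D : MvPolynomial V F →ₗ[F] F)
    (hD : ∀ Z : MvPolynomial V F, (∀ w, degreeOf w Z ≤ m) → D (dd Z) = 0)
    (P Q : MvPolynomial V F) (d : V → ℕ) (hP : dd P = 0) (hPd : ∀ w, degreeOf w P ≤ d w)
    (hQ : dd Q = 0) (hQd : ∀ w, degreeOf w Q + d w ≤ m) (u v : V) (huv : u ≠ v)
    (hd : d u + d v + p ≤ 2 * m + 1) (h : D (P * Q) ≠ 0) :
    ∃ Q' : MvPolynomial V F, dd Q' = 0 ∧
      (∀ w, degreeOf w Q' + (d w + ((if w = u then 1 else 0) + (if w = v then 1 else 0))) ≤ m) ∧
      D (P * ((X u - X v) * Q')) ≠ 0 := by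
  have hdu := hQd u
  have hdv := hQd v
  set α := m - d u with hα
  set β := m - d v with hβ
  set s := p - 1 - α with hs
  have hsβ : s ≤ β := by omega
  -- move `v` to `u`
  have h1 : dd (EEs u v β s Q) = 0 := by rw [dd_EEs, hQ, EEs_map_zero]
  have h2 : degreeOf u (EEs u v β s Q) ≤ p - 1 := by
    refine (degreeOf_EEs u v u β s Q).trans ?_
    rw [if_pos rfl]
    omega
  have h3 : degreeOf v (EEs u v β s Q) ≤ β - s :=
    degreeOf_EEs_self u v huv β s Q (by omega)
  have h4 : ∀ w, w ≠ u → degreeOf w (EEs u v β s Q) ≤ degreeOf w Q := by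
    intro w hw
    refine (degreeOf_EEs u v w β s Q).trans ?_
    rw [if_neg hw, add_zero]
  obtain ⟨Z, hZ, hZu, hZw⟩ := exact p u _ h1 h2
  -- move back
  have h5 : degreeOf u (EEs v u (p - 1) s Z) ≤ m - d u := by
    refine (degreeOf_EEs_self v u huv.symm (p - 1) s Z hZu).trans ?_
    omega
  have h6 : ∀ w, degreeOf w (EEs v u (p - 1) s Z) ≤ m - d w := by
    intro w
    by_cases hw : w = u
    · rw [hw]; exact h5
    refine (degreeOf_EEs v u w (p - 1) s Z).trans ?_
    split_ifs with hw2
    · subst hw2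
      have := hZw w hw
      omega
    · have h7 := hZw w hw
      have h8 := h4 w hw
      have h9 := hQd w
      omega
  have h7 : D (P * EEs v u (p - 1) s (EEs u v β s Q)) = 0 := by
    rw [← hZ, ← dd_EEs]
    have h8 : P * dd (EEs v u (p - 1) s Z) = dd (P * EEs v u (p - 1) s Z) := by
      rw [dd_mul, hP, zero_mul, add_zero]
    rw [h8]
    apply hD
    intro w
    refine (degreeOf_mul_le _ _ _).trans ?_
    have h9 := hPd w
    have h10 := h6 w
    have h11 := hQd w
    omega
  obtain ⟨Y1, hY1⟩ := EEs_mod u v β s Q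
  obtain ⟨Y2, hY2⟩ := EEs_mod v u (p - 1) s (EEs u v β s Q)
  set l1 : F := ((β.descFactorial s : ℕ) : F) with hl1
  set l2 : F := (((p - 1).descFactorial s : ℕ) : F) with hl2
  have hl1' : l1 ≠ 0 := descFactorial_cast_ne_zero p β s (by omega) hsβ
  have hl2' : l2 ≠ 0 := descFactorial_cast_ne_zero p (p - 1) s le_rfl (by omega)
  have h8 : (X u - X v) * (C l2 * Y1 - Y2) =
      EEs v u (p - 1) s (EEs u v β s Q) - C (l1 * l2) * Q := by
    rw [hY2]
    conv_rhs => rw [hY1]
    rw [C_mul]
    ring
  have h9 : D (P * ((X u - X v) * (C l2 * Y1 - Y2))) ≠ 0 := by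
    rw [h8, mul_sub, map_sub, h7, zero_sub, mul_left_comm, ← smul_eq_C_mul, map_smul, smul_eq_mul]
    exact neg_ne_zero.2 (mul_ne_zero (mul_ne_zero hl1' hl2') h)
  have h10 : C l2 * Y1 - Y2 ≠ 0 := by
    intro h0
    rw [h0, mul_zero, mul_zero, map_zero] at h9
    exact h9 rfl
  refine ⟨C l2 * Y1 - Y2, ?_, ?_, h9⟩
  · have h11 : dd ((X u - X v) * (C l2 * Y1 - Y2)) = 0 := by
      rw [h8, map_sub, dd_EEs, h1, EEs_map_zero, dd_C_mul, hQ, mul_zero, sub_zero]
    rw [dd_mul, dd_X_sub, zero_mul, add_zero] at h11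
    exact (mul_eq_zero.1 h11).resolve_left (X_sub_ne_zero u v huv)
  · intro w
    have h11 := degreeOf_div u v w huv _ h10
    have h12 : degreeOf w ((X u - X v) * (C l2 * Y1 - Y2)) ≤ m - d w := by
      rw [h8]
      refine (degreeOf_sub_le _ _ _).trans (max_le ?_ ?_)
      · by_cases hw : w = u
        · rw [hw]
          refine (degreeOf_EEs_self v u huv.symm (p - 1) s _ h2).trans ?_
          omega
        refine (degreeOf_EEs v u w (p - 1) s _).trans ?_
        have h13 := h4 w hw
        have h14 := hQd w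
        split_ifs with hw2
        · subst hw2
          omega
        · omega
      · refine (degreeOf_C_mul_le _ _ _).trans ?_
        have := hQd w
        omega
    have h13 := hQd w
    omega

end Pool.Agent.H13.SC
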