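import Pool.Agent.H13.SC.Alg

/-!
# Strong colourings modulo a prime: the functional and the induction

`DD` is the signed sum of the values of a polynomial in the variables `ι × Fin k` over all the
points at which, for every `i`, the block `{i} × Fin k` gets the values `0, …, k - 1` in some order.
-/

set_option autoImplicit false

namespace Pool.Agent.H13.SC

open MvPolynomial

variable {ι : Type*} [Fintype ι] [DecidableEq ι] {F : Type*} [Field F] {k : ℕ}

/-- The point of a family of permutations. -/
def pt (F : Type*) [Field F] (σ : ι → Equiv.Perm (Fin k)) : ι × Fin k → F :=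
  fun v => (((σ v.1 v.2 : Fin k) : ℕ) : F)

/-- The sign of a family of permutations. -/
def sg (F : Type*) [Field F] (σ : ι → Equiv.Perm (Fin k)) : F :=
  ∏ i, (((Equiv.Perm.sign (σ i) : ℤˣ) : ℤ) : F)

/-- The functional. -/
noncomputable def DD (ι : Type*) [Fintype ι] [DecidableEq ι] (F : Type*) [Field F] (k : ℕ) :
    MvPolynomial (ι × Fin k) F →ₗ[F] F :=
  ∑ σ : ι → Equiv.Perm (Fin k), sg F σ • (aeval (pt F σ)).toLinearMap

theorem DD_apply (P : MvPolynomial (ι × Fin k) F) :
    DD ι F k P = ∑ σ : ι → Equiv.Perm (Fin k), sg F σ * eval (pt F σ) P := by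
  rw [DD, LinearMap.sum_apply]
  refine Finset.sum_congr rfl fun σ _ => ?_
  rw [LinearMap.smul_apply, smul_eq_mul, AlgHom.toLinearMap_apply, ← coe_aeval_eq_eval]
  rfl

/-- The matrix of powers. -/
def mat (F : Type*) [Field F] (t : Fin k → ℕ) : Matrix (Fin k) (Fin k) F :=
  Matrix.of fun j a => (((j : ℕ) : F)) ^ t a

theorem det_mat (t : Fin k → ℕ) :
    (mat F t).det = ∑ σ : Equiv.Perm (Fin k), (((Equiv.Perm.sign σ : ℤˣ) : ℤ) : F) *
      ∏ a, ((((σ a : Fin k) : ℕ) : F)) ^ t a := by
  rw [Matrix.det_apply']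
  rfl

theorem DD_monomial (t : ι × Fin k →₀ ℕ) (c : F) :
    DD ι F k (monomial t c) = c * ∏ i, (mat F (fun a => t (i, a))).det := by
  rw [DD_apply]
  simp only [det_mat]
  rw [Finset.prod_univ_sum, Fintype.piFinset_univ, Finset.mul_sum]
  refine Finset.sum_congr rfl fun σ _ => ?_
  rw [eval_monomial, Finsupp.prod_fintype _ _ (fun i => pow_zero _), Finset.prod_mul_distrib,
    Fintype.prod_prod_type, sg]
  simp only [pt]
  ring

theorem det_mat_eq_zero (t : Fin k → ℕ) (a b : Fin k) (hab : a ≠ b) (h : t a = t b) :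
    (mat F t).det = 0 := by
  apply Matrix.det_zero_of_column_eq hab
  intro j
  simp only [mat, Matrix.of_apply, h]

theorem det_mat_swap (t t' : Fin k → ℕ) (a b : Fin k) (hab : a ≠ b)
    (h : t' = t ∘ Equiv.swap a b) : (mat F t').det = -(mat F t).det := by
  have h1 : mat F t' = (mat F t).submatrix id (Equiv.swap a b) := by
    subst h
    rfl
  rw [h1, Matrix.det_permute', Equiv.Perm.sign_swap hab]
  simp

theorem sum_det_mat (t : Fin k → ℕ) (ht : ∀ a, t a ≤ k - 1) :
    ∑ a, ((t a : ℕ) : F) * (mat F (t - Pi.single a 1)).det = 0 := by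
  classical
  by_cases hinj : Function.Injective t
  · apply Finset.sum_eq_zero
    intro a _
    by_cases ha : t a = 0
    · rw [ha, Nat.cast_zero, zero_mul]
    have hk : 0 < k := a.pos
    -- `t` is a bijection onto `{0, …, k - 1}`
    let t' : Fin k → Fin k := fun b => ⟨t b, by have := ht b; omega⟩
    have ht' : Function.Injective t' := by
      intro b c hbc
      exact hinj (congrArg Fin.val hbc)
    obtain ⟨b, hb⟩ := (Finite.injective_iff_surjective.1 ht') ⟨t a - 1, by have := ht a; omega⟩
    have hb' : t b = t a - 1 := congrArg Fin.val hb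
    have hba : b ≠ a := by
      rintro rfl
      omega
    rw [det_mat_eq_zero _ a b hba.symm, mul_zero]
    simp only [Pi.sub_apply, Pi.single_eq_same, Pi.single_eq_of_ne hba, hb']
    rfl
  · rw [Function.not_injective_iff] at hinj
    obtain ⟨a, b, hab, hne⟩ := hinj
    rw [← Finset.add_sum_erase _ _ (Finset.mem_univ a),
      ← Finset.add_sum_erase _ _ (Finset.mem_erase.2 ⟨hne.symm, Finset.mem_univ b⟩),
      Finset.sum_eq_zero, add_zero, hab, ← mul_add]
    · rw [det_mat_swap (t - Pi.single a 1) (t - Pi.single b 1) a b hne, add_neg_cancel, mul_zero]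
      ext c
      simp only [Pi.sub_apply, Function.comp_apply]
      by_cases hca : c = a
      · subst hca
        rw [Equiv.swap_apply_left, Pi.single_eq_of_ne hne, Pi.single_eq_of_ne hne.symm, hab]
      · by_cases hcb : c = b
        · subst hcb
          rw [Equiv.swap_apply_right, Pi.single_eq_same, Pi.single_eq_same, hab]
        · rw [Equiv.swap_apply_of_ne_of_ne hca hcb, Pi.single_eq_of_ne hcb,
            Pi.single_eq_of_ne hca]
    · intro c hc
      rw [Finset.mem_erase, Finset.mem_erase] at hc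
      rw [det_mat_eq_zero _ a b hne, mul_zero]
      simp only [Pi.sub_apply, Pi.single_eq_of_ne hc.2.1.symm, Pi.single_eq_of_ne hc.1.symm, hab]

theorem DD_dd (Z : MvPolynomial (ι × Fin k) F) (hZ : ∀ w, degreeOf w Z ≤ k - 1) :
    DD ι F k (dd Z) = 0 := by
  have h1 : ∀ (t : ι × Fin k →₀ ℕ) (c : F), (∀ w, t w ≤ k - 1) →
      DD ι F k (dd (monomial t c)) = 0 := by
    intro t c ht
    rw [dd, mkDerivation_monomial, Finsupp.sum_fintype _ _ (fun i => by simp), map_smul, map_sum]
    simp only [smul_eq_mul, mul_one, DD_monomial]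
    rw [Fintype.sum_prod_type, Finset.sum_eq_zero, mul_zero]
    intro i _
    have h2 : ∀ a : Fin k, ((t (i, a) : ℕ) : F) *
        ∏ i', (mat F (fun a' => (t - Finsupp.single (i, a) 1 : ι × Fin k →₀ ℕ) (i', a'))).det =
        (((t (i, a) : ℕ) : F) * (mat F ((fun a => t (i, a)) - Pi.single a 1)).det) *
          ∏ i' ∈ Finset.univ.erase i, (mat F (fun a' => t (i', a'))).det := by
      intro a
      rw [mul_assoc, ← Finset.mul_prod_erase Finset.univ _ (Finset.mem_univ i)]
      congr 2
      · congr 2
        ext a'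
        simp only [Finsupp.tsub_apply, Pi.sub_apply]
        by_cases ha : a' = a
        · subst ha
          simp
        · rw [Pi.single_eq_of_ne ha, Finsupp.single_eq_of_ne]
          intro h
          exact ha (Prod.ext_iff.1 h).2
      · refine Finset.prod_congr rfl fun i' hi' => ?_
        congr 2
        ext a'
        rw [Finsupp.tsub_apply, Finsupp.single_eq_of_ne, Nat.sub_zero]
        intro h
        exact (Finset.mem_erase.1 hi').1 (Prod.ext_iff.1 h).1
    rw [Finset.sum_congr rfl fun a _ => h2 a, ← Finset.sum_mul,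
      sum_det_mat (fun a => t (i, a)) (fun a => ht _), zero_mul]
  rw [← MvPolynomial.support_sum_monomial_coeff Z, map_sum, map_sum]
  apply Finset.sum_eq_zero
  intro t ht
  exact h1 t _ (fun w => degreeOf_le_iff.1 (hZ w) t ht)

/-! ## The start of the induction -/

/-- The product of the Vandermonde determinants of the blocks. -/
noncomputable def Q0 (ι : Type*) [Fintype ι] (F : Type*) [Field F] (k : ℕ) :
    MvPolynomial (ι × Fin k) F :=
  ∏ i, (Matrix.vandermonde fun a : Fin k => (X (i, a) : MvPolynomial (ι × Fin k) F)).det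

theorem dd_prod {κ : Type*} {V : Type*} (s : Finset κ) (f : κ → MvPolynomial V F)
    (h : ∀ j ∈ s, dd (f j) = 0) : dd (∏ j ∈ s, f j) = 0 := by
  classical
  induction s using Finset.induction_on with
  | empty =>
    rw [Finset.prod_empty]
    exact Derivation.map_one_eq_zero _
  | insert a s ha ih =>
    rw [Finset.prod_insert ha]
    exact dd_mul_eq_zero (h a (Finset.mem_insert_self _ _))
      (ih fun j hj => h j (Finset.mem_insert_of_mem hj))

omit [DecidableEq ι] in
theorem dd_Q0 : dd (Q0 ι F k) = 0 := by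
  apply dd_prod
  intro i _
  rw [Matrix.det_vandermonde]
  apply dd_prod
  intro a _
  apply dd_prod
  intro b _
  exact dd_X_sub _ _

theorem degreeOf_Q0 (w : ι × Fin k) : degreeOf w (Q0 ι F k) ≤ k - 1 := by
  have h1 : ∀ i, degreeOf w
      (Matrix.vandermonde fun a : Fin k => (X (i, a) : MvPolynomial (ι × Fin k) F)).det ≤
      if i = w.1 then k - 1 else 0 := by
    intro i
    rw [Matrix.det_apply']
    apply degreeOf_sum_le'
    intro σ _
    have h2 : ((((Equiv.Perm.sign σ : ℤˣ) : ℤ)) : MvPolynomial (ι × Fin k) F) =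
        C ((((Equiv.Perm.sign σ : ℤˣ) : ℤ)) : F) := by simp
    rw [h2]
    refine (degreeOf_C_mul_le _ _ _).trans ((degreeOf_prod_le _ _ _).trans ?_)
    have h3 : ∀ a : Fin k, degreeOf w
        (Matrix.vandermonde (fun a : Fin k => (X (i, a) : MvPolynomial (ι × Fin k) F)) (σ a) a) ≤
        if a = σ.symm w.2 then (if i = w.1 then k - 1 else 0) else 0 := by
      intro a
      rw [Matrix.vandermonde_apply]
      refine (degreeOf_pow_le _ _ _).trans ?_
      rw [degreeOf_X]
      have ha := a.isLt
      split_ifs with h4 h5 h6 h5 h6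
      · omega
      · exact absurd (Prod.ext_iff.1 h4).1.symm h6
      · exact absurd (by rw [(Prod.ext_iff.1 h4).2]; simp) h5
      all_goals simp
    refine (Finset.sum_le_sum fun a _ => h3 a).trans ?_
    rw [Finset.sum_ite_eq' Finset.univ, if_pos (Finset.mem_univ _)]
  refine (degreeOf_prod_le _ _ _).trans ((Finset.sum_le_sum fun i _ => h1 i).trans ?_)
  rw [Finset.sum_ite_eq' Finset.univ, if_pos (Finset.mem_univ _)]

omit [DecidableEq ι] in
theorem eval_Q0 (σ : ι → Equiv.Perm (Fin k)) :
    eval (pt F σ) (Q0 ι F k) =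
      sg F σ * (Matrix.vandermonde fun a : Fin k => (((a : ℕ) : F))).det ^ Fintype.card ι := by
  rw [Q0, map_prod, sg, ← Finset.card_univ, ← Finset.prod_const, ← Finset.prod_mul_distrib]
  refine Finset.prod_congr rfl fun i _ => ?_
  rw [RingHom.map_det]
  have h1 : (eval (pt F σ)).mapMatrix
      (Matrix.vandermonde fun a : Fin k => (X (i, a) : MvPolynomial (ι × Fin k) F)) =
      (Matrix.vandermonde fun a : Fin k => (((a : ℕ) : F))).submatrix (σ i) id := by
    ext a b
    simp [Matrix.vandermonde_apply, pt]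
  rw [h1, Matrix.det_permute]

omit [DecidableEq ι] in
theorem sg_mul_self (σ : ι → Equiv.Perm (Fin k)) : sg F σ * sg F σ = 1 := by
  rw [sg, ← Finset.prod_mul_distrib]
  apply Finset.prod_eq_one
  intro i _
  rw [← Int.cast_mul, Int.units_coe_mul_self, Int.cast_one]

theorem DD_Q0 (p : ℕ) [hp : Fact p.Prime] [CharP F p] (hk : k < p) :
    DD ι F k (Q0 ι F k) ≠ 0 := by
  rw [DD_apply]
  simp only [eval_Q0, ← mul_assoc, sg_mul_self, one_mul]
  rw [Finset.sum_const, Finset.card_univ, Fintype.card_pi, Finset.prod_const, Finset.card_univ,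
    Fintype.card_perm, Fintype.card_fin, nsmul_eq_mul, Nat.cast_pow]
  refine mul_ne_zero (pow_ne_zero _ ?_) (pow_ne_zero _ ?_)
  · intro h
    rw [CharP.cast_eq_zero_iff F p, hp.out.dvd_factorial] at h
    omega
  · rw [Matrix.det_vandermonde_ne_zero_iff]
    intro a b hab
    have h1 : ((a : ℕ) : F) = ((b : ℕ) : F) := hab
    rw [CharP.natCast_eq_natCast F p, Nat.ModEq, Nat.mod_eq_of_lt (a.isLt.trans hk),
      Nat.mod_eq_of_lt (b.isLt.trans hk)] at h1
    exact Fin.ext h1

end Pool.Agent.H13.SC
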