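import Pool.Agent.H93.SC.Targets

/-!
G0: degrees do not change under purely transcendental base change (MP_f2954d_ag).
-/

set_option autoImplicit false

namespace SC.H13

open SC
open scoped IntermediateField.algebraAdjoinAdjoin

variable {k K L : Type} [Field k] [Field K] [Algebra k K] [Field L] [Algebra K L]
  [Algebra k L] [IsScalarTower k K L]

/-- families independent over `k` stay independent over `k(T)` -/
lemma linearIndependent_kU {V : Type} {T : V → L} (hT : AlgebraicIndependent K T) {ι : Type}
    {b : ι → K} (hb : LinearIndependent k b) :
    LinearIndependent (kU k T) (fun i => algebraMap K L (b i)) := by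
  classical
  rw [← LinearIndependent.iff_fractionRing (Algebra.adjoin k (Set.range T)) (kU k T)]
  rw [linearIndependent_iff']
  intro s g hg
  have hex : ∀ i, ∃ P : MvPolynomial V k, MvPolynomial.aeval T P = (g i : L) := by
    intro i
    obtain ⟨y, hy⟩ := g i
    rw [Algebra.adjoin_range_eq_range_aeval] at hy
    exact hy
  choose P hP using hex
  have hQ : MvPolynomial.aeval T (∑ i ∈ s, MvPolynomial.C (b i) *
      MvPolynomial.map (algebraMap k K) (P i)) = 0 := by
    rw [map_sum, ← hg]
    refine Finset.sum_congr rfl fun i _ => ?_
    rw [map_mul, MvPolynomial.aeval_C, MvPolynomial.aeval_map_algebraMap, hP, mul_comm]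
    rfl
  have hQ0 := (algebraicIndependent_iff.1 hT) _ hQ
  have hcoef : ∀ m, ∀ i ∈ s, (P i).coeff m = 0 := by
    intro m
    apply (linearIndependent_iff'.1 hb) s (fun i => (P i).coeff m)
    have h1 := congrArg (MvPolynomial.coeff m) hQ0
    rw [MvPolynomial.coeff_sum, MvPolynomial.coeff_zero] at h1
    rw [← h1]
    refine Finset.sum_congr rfl fun i _ => ?_
    rw [MvPolynomial.coeff_C_mul, MvPolynomial.coeff_map, Algebra.smul_def, mul_comm]
  intro i hi
  have hPi : P i = 0 := by
    ext m
    rw [hcoef m i hi, MvPolynomial.coeff_zero]
  apply Subtype.ext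
  rw [← hP i, hPi, map_zero]
  rfl

/-- G0 -/
theorem g0 : T_G0 := by
  intro k K L _ _ _ _ _ _ _ V _ T hT htop
  by_cases hfin : Module.Finite k K
  · have b := Module.finBasis k K
    have H : (kU k T).LinearDisjoint K :=
      IntermediateField.LinearDisjoint.of_basis_right' b (linearIndependent_kU hT b.linearIndependent)
    have h1 := H.lift_adjoin_rank_eq_lift_rank_right_of_isAlgebraic (Or.inr inferInstance)
    have h2 : IntermediateField.adjoin K ((kU k T : IntermediateField k L) : Set L) = ⊤ := by
      rw [eq_top_iff, ← htop, IntermediateField.adjoin_le_iff]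
      rintro x ⟨i, rfl⟩
      apply IntermediateField.subset_adjoin
      exact IntermediateField.subset_adjoin k _ ⟨i, rfl⟩
    rw [Cardinal.lift_id, Cardinal.lift_id] at h1
    have h3 : IntermediateField.extendScalars (show kU k T ≤ (IntermediateField.adjoin K
        ((kU k T : IntermediateField k L) : Set L)).restrictScalars k from
        IntermediateField.subset_adjoin K _) = ⊤ := by
      rw [eq_top_iff]
      intro x _
      rw [IntermediateField.mem_extendScalars]
      change x ∈ IntermediateField.adjoin K ((kU k T : IntermediateField k L) : Set L)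
      rw [h2]
      exact IntermediateField.mem_top
    rw [h3] at h1
    rw [Module.finrank, Module.finrank, ← h1]
    congr 1
    exact (IntermediateField.topEquiv (F := kU k T) (E := L)).toLinearEquiv.rank_eq.symm
  · rw [Module.finrank_of_not_finite hfin]
    apply Module.finrank_of_not_finite
    intro hf
    apply hfin
    have b := Module.Free.chooseBasis k K
    have h1 := linearIndependent_kU hT b.linearIndependent
    have h2 : Finite (Module.Free.ChooseBasisIndex k K) := h1.finite
    exact Module.Finite.of_basis b

end SC.H13
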