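import Pool.Agent.H57.SC.Targets

/-! ML: the main lemma (clean doubles), from one step of the induction -/

set_option autoImplicit false

namespace Pool.Agent.H57.SC

open Finset

theorem pf_ml (st : T_ST) : T_ML := by
  intro W C B _ _ _ _ _ _ cyc blk adj hS d m0 hcard hcyc hcen
  have ind : ∀ k, k ≤ d → ∃ (Q : Finset B) (f : C → W), Q.card = k ∧ St cyc blk adj Q f ∧
      ∀ b ∈ Q, (univ.filter (fun w => blk w = b)).card = 4 := by
    intro k
    induction k with
    | zero =>
      intro _
      refine ⟨∅, m0, card_empty, ⟨fun c => ⟨hcyc c, fun p hp => ?_, fun p q hp => ?_⟩, fun b => ?_⟩,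
        fun b hb => absurd hb (notMem_empty b)⟩
      · exact absurd hp.2 (notMem_empty _)
      · exact absurd hp.2 (notMem_empty _)
      · obtain ⟨c, hc⟩ := hcen b
        have h1 : dem (∅ : Finset B) b = 1 := by unfold dem; rw [if_neg (notMem_empty b)]
        rw [h1]
        exact card_pos.2 ⟨c, mem_filter.2 ⟨mem_univ c, hc⟩⟩
    | succ k ih =>
      intro hk
      obtain ⟨Q, f, hQ, hst, h4⟩ := ih (by omega)
      obtain ⟨b, hb, hb4, f', hst'⟩ := st W C B cyc blk adj hS Q f d hst hcard (by omega)
      refine ⟨insert b Q, f', by rw [card_insert_of_notMem hb, hQ], hst', ?_⟩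
      intro b' hb'
      rcases mem_insert.1 hb' with rfl | h
      · exact hb4
      · exact h4 b' h
  obtain ⟨Q, f, hQ, hst, h4⟩ := ind d le_rfl
  have hsum1 : ∑ b : B, cn blk f b = Fintype.card C := by
    unfold cn
    rw [← card_univ]
    exact (card_eq_sum_card_fiberwise (fun c _ => mem_univ (blk (f c)))).symm
  have hsum2 : ∑ b : B, dem Q b = Fintype.card B + d := by
    have h : ∀ b : B, dem Q b = 1 + if b ∈ Q then 1 else 0 := by
      intro b
      unfold dem
      split_ifs <;> rfl
    rw [sum_congr rfl (fun b _ => h b), sum_add_distrib, ← card_eq_sum_ones, card_univ,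
      ← card_filter, filter_mem_eq_inter, univ_inter, hQ]
  have heq : ∀ b : B, dem Q b = cn blk f b := by
    have h := (sum_eq_sum_iff_of_le (s := (univ : Finset B)) (fun b _ => hst.dm b)).1
      (by rw [hsum1, hsum2, hcard])
    exact fun b => h b (mem_univ b)
  refine ⟨f, Q, fun c => (hst.al c).1, hQ, fun b hb => ?_, fun b hb => ?_, h4, fun w hw => ?_,
    fun w w' hw hw' hc h1 h2 => ?_⟩
  · have h := heq b
    unfold dem cn at h
    rw [if_pos hb] at h
    exact h.symm
  · have h := heq b
    unfold dem cn at h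
    rw [if_neg hb] at h
    exact h.symm
  · rcases (hst.al (cyc w)).2.1 w ⟨rfl, hw⟩ with h | h
    · exact Or.inl h.symm
    · exact Or.inr h
  · by_contra hne
    rcases (hst.al (cyc w)).2.2 w w' ⟨rfl, hw⟩ ⟨hc.symm, hw'⟩ hne with h | h
    · exact h1 h.symm
    · exact h2 h.symm

end Pool.Agent.H57.SC
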