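import Pool.Agent.H13.SC.Blocks

/-!
# Strong colourings modulo a prime: the theorem for graphs
-/

set_option autoImplicit false

namespace Pool.Agent.H13.SC

open MvPolynomial

/-- The degree of `w` in a list of pairs. -/
def dg {V : Type*} [DecidableEq V] (l : List (V × V)) (w : V) : ℕ :=
  (l.map fun e => (if w = e.1 then 1 else 0) + (if w = e.2 then 1 else 0)).sum

theorem dg_cons {V : Type*} [DecidableEq V] (e : V × V) (l : List (V × V)) (w : V) :
    dg (e :: l) w = ((if w = e.1 then 1 else 0) + (if w = e.2 then 1 else 0)) + dg l w := by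
  simp [dg]

/-- The product of the differences over a list of pairs. -/
noncomputable def PP {V : Type*} (F : Type*) [Field F] (l : List (V × V)) : MvPolynomial V F :=
  (l.map fun e => (X e.1 - X e.2 : MvPolynomial V F)).prod

theorem PP_cons {V : Type*} {F : Type*} [Field F] (e : V × V) (l : List (V × V)) :
    PP F (e :: l) = (X e.1 - X e.2) * PP F l := by
  simp [PP]

theorem dd_PP {V : Type*} {F : Type*} [Field F] (l : List (V × V)) : dd (PP F l) = 0 := by
  induction l with
  | nil => exact Derivation.map_one_eq_zero _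
  | cons e l ih =>
    rw [PP_cons]
    exact dd_mul_eq_zero (dd_X_sub _ _) ih

theorem degreeOf_PP {V : Type*} [DecidableEq V] {F : Type*} [Field F] (l : List (V × V)) (w : V) :
    degreeOf w (PP F l) ≤ dg l w := by
  induction l with
  | nil =>
    simp [PP, dg]
  | cons e l ih =>
    rw [PP_cons, dg_cons]
    refine (degreeOf_mul_le _ _ _).trans (add_le_add ?_ ih)
    refine (degreeOf_sub_le _ _ _).trans ?_
    rw [degreeOf_X, degreeOf_X]
    split_ifs <;> simp

theorem alg_main {ι : Type*} [Fintype ι] [DecidableEq ι] (p k : ℕ) [hp : Fact p.Prime]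
    (hk1 : 1 ≤ k) (hk : k < p) (l : List ((ι × Fin k) × (ι × Fin k)))
    (hne : ∀ e ∈ l, e.1 ≠ e.2) (hdeg : ∀ e ∈ l, dg l e.1 + dg l e.2 + p ≤ 2 * k + 1) :
    ∃ Q : MvPolynomial (ι × Fin k) (ZMod p), dd Q = 0 ∧
      (∀ w, degreeOf w Q + dg l w ≤ k - 1) ∧ DD ι (ZMod p) k (PP (ZMod p) l * Q) ≠ 0 := by
  induction l with
  | nil =>
    refine ⟨Q0 ι (ZMod p) k, dd_Q0, fun w => ?_, ?_⟩
    · simpa [dg] using degreeOf_Q0 w
    · simpa [PP] using DD_Q0 p hk
  | cons e l ih =>
    obtain ⟨Q, hQ, hQd, hQD⟩ := ih (fun e' he' => hne e' (List.mem_cons_of_mem _ he'))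
      (fun e' he' => by
        have := hdeg e' (List.mem_cons_of_mem _ he')
        rw [dg_cons, dg_cons] at this
        omega)
    have hne' : e.1 ≠ e.2 := hne e List.mem_cons_self
    have h1 := hdeg e List.mem_cons_self
    rw [dg_cons, dg_cons, if_pos rfl, if_pos rfl, if_neg hne', if_neg hne'.symm] at h1
    obtain ⟨Q', hQ', hQd', hQD'⟩ := step p (k - 1) (by omega) (DD ι (ZMod p) k)
      (fun Z hZ => DD_dd Z hZ) (PP (ZMod p) l) Q (dg l) (dd_PP l) (degreeOf_PP l) hQ hQd e.1 e.2
      hne' (by omega) hQD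
    refine ⟨Q', hQ', fun w => ?_, ?_⟩
    · have := hQd' w
      rw [dg_cons]
      omega
    · rw [PP_cons]
      have h2 : (X e.1 - X e.2) * PP (ZMod p) l * Q' = PP (ZMod p) l * ((X e.1 - X e.2) * Q') := by
        ring
      rwa [h2]

theorem list_main {ι : Type*} [Fintype ι] [DecidableEq ι] (p k : ℕ) (hp : p.Prime)
    (hk1 : 1 ≤ k) (hk : k < p) (l : List ((ι × Fin k) × (ι × Fin k)))
    (hne : ∀ e ∈ l, e.1 ≠ e.2) (hdeg : ∀ e ∈ l, dg l e.1 + dg l e.2 + p ≤ 2 * k + 1) :
    ∃ σ : ι → Equiv.Perm (Fin k), ∀ e ∈ l, σ e.1.1 e.1.2 ≠ σ e.2.1 e.2.2 := by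
  have : Fact p.Prime := ⟨hp⟩
  obtain ⟨Q, -, -, hD⟩ := alg_main p k hk1 hk l hne hdeg
  rw [DD_apply] at hD
  obtain ⟨σ, -, hσ⟩ := Finset.exists_ne_zero_of_sum_ne_zero hD
  refine ⟨σ, fun e he h => ?_⟩
  apply hσ
  rw [map_mul, PP, map_list_prod, List.map_map]
  have h1 : (0 : ZMod p) ∈ List.map
      ((eval (pt (ZMod p) σ)) ∘ fun e : (ι × Fin k) × (ι × Fin k) => X e.1 - X e.2) l := by
    rw [List.mem_map]
    refine ⟨e, he, ?_⟩
    simp only [Function.comp_apply, map_sub, eval_X, pt]
    rw [h, sub_self]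
  rw [List.prod_eq_zero h1, zero_mul, mul_zero]

/-- **Theorem.**  Let `p` be a prime number, `1 ≤ k < p`, and let `G` be a finite graph with
`deg u + deg v + p ≤ 2 k + 1` for all adjacent `u`, `v`.  Then for every partition of the vertices
into blocks of size at most `k` there is a proper colouring of `G` with `k` colours which is
injective on every block. -/
theorem strong_of_prime {V : Type*} [Fintype V] [DecidableEq V] (G : SimpleGraph V)
    [DecidableRel G.Adj] (p k : ℕ) (hp : p.Prime) (hk1 : 1 ≤ k) (hk : k < p)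
    (hdeg : ∀ u v, G.Adj u v → G.degree u + G.degree v + p ≤ 2 * k + 1)
    {ι : Type*} [DecidableEq ι] (f : V → ι)
    (hf : ∀ i, (Finset.univ.filter (fun v => f v = i)).card ≤ k) :
    ∃ c : V → Fin k, (∀ u v, G.Adj u v → c u ≠ c v) ∧
      (∀ u v, f u = f v → c u = c v → u = v) := by
  classical
  -- positions inside the blocks
  have h1 : ∀ i, ∃ g : V → Fin k, ∀ u v, f u = i → f v = i → g u = g v → u = v := by
    intro i
    have h2 : Fintype.card {v // f v = i} ≤ Fintype.card (Fin k) := by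
      rw [Fintype.card_subtype, Fintype.card_fin]
      exact hf i
    obtain ⟨g⟩ := Function.Embedding.nonempty_of_card_le h2
    refine ⟨fun v => if h : f v = i then g ⟨v, h⟩ else ⟨0, hk1⟩, fun u v hu hv h => ?_⟩
    simp only [dif_pos hu, dif_pos hv] at h
    exact congrArg Subtype.val (g.injective h)
  choose g hg using h1
  let φ : V → (Finset.univ.image f) × Fin k := fun v =>
    (⟨f v, Finset.mem_image_of_mem f (Finset.mem_univ v)⟩, g (f v) v)
  have hφ : Function.Injective φ := by
    intro u v h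
    have h2 : f u = f v := congrArg Subtype.val (Prod.ext_iff.1 h).1
    have h3 : g (f u) u = g (f v) v := (Prod.ext_iff.1 h).2
    rw [← h2] at h3
    exact hg (f u) u v rfl h2.symm h3
  let pr : Sym2 V → ((Finset.univ.image f) × Fin k) × ((Finset.univ.image f) × Fin k) := fun s => (φ (Quot.out s).1, φ (Quot.out s).2)
  let l := G.edgeFinset.toList.map pr
  have hout : ∀ s : Sym2 V, s = s((Quot.out s).1, (Quot.out s).2) := fun s => (Quot.out_eq s).symm
  have hadj : ∀ s ∈ G.edgeFinset, G.Adj (Quot.out s).1 (Quot.out s).2 := by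
    intro s hs
    rw [SimpleGraph.mem_edgeFinset, hout s, SimpleGraph.mem_edgeSet] at hs
    exact hs
  have hdg : ∀ w : V, dg l (φ w) = G.degree w := by
    intro w
    have h2 : dg l (φ w) = ∑ s ∈ G.edgeFinset, if w ∈ s then 1 else 0 := by
      rw [dg, List.map_map, ← Finset.sum_map_toList]
      congr 1
      apply List.map_congr_left
      intro s hs
      rw [Finset.mem_toList] at hs
      have h3 := hadj s hs
      have h4 : w ∈ s ↔ w = (Quot.out s).1 ∨ w = (Quot.out s).2 := by
        conv_lhs => rw [hout s]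
        exact Sym2.mem_iff
      simp only [Function.comp_apply, pr, hφ.eq_iff, h4]
      by_cases h5 : w = (Quot.out s).1
      · have h6 : w ≠ (Quot.out s).2 := fun h => h3.ne (h5.symm.trans h)
        simp [h5, h3.ne]
      · simp [h5]
    rw [h2, Finset.sum_boole, ← SimpleGraph.card_incidenceFinset_eq_degree,
      SimpleGraph.incidenceFinset_eq_filter]
    rfl
  obtain ⟨σ, hσ⟩ := list_main p k hp hk1 hk l
    (by
      intro e he
      obtain ⟨s, hs, rfl⟩ := List.mem_map.1 he
      exact hφ.ne (hadj s (Finset.mem_toList.1 hs)).ne)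
    (by
      intro e he
      obtain ⟨s, hs, rfl⟩ := List.mem_map.1 he
      have h2 : (pr s).1 = φ (Quot.out s).1 := rfl
      have h3 : (pr s).2 = φ (Quot.out s).2 := rfl
      rw [h2, h3, hdg, hdg]
      exact hdeg _ _ (hadj s (Finset.mem_toList.1 hs)))
  refine ⟨fun v => σ (φ v).1 (φ v).2, fun u v huv => ?_, fun u v huv h => ?_⟩
  · have hs : s(u, v) ∈ G.edgeFinset := by
      rw [SimpleGraph.mem_edgeFinset]
      exact huv
    have h2 := hσ (pr s(u, v)) (List.mem_map_of_mem (Finset.mem_toList.2 hs))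
    have h3 := hout s(u, v)
    rw [Sym2.eq_iff] at h3
    rcases h3 with ⟨h3, h4⟩ | ⟨h3, h4⟩
    · have h5 : pr s(u, v) = (φ u, φ v) := by
        simp only [pr, ← h3, ← h4]
      rw [h5] at h2
      exact h2
    · have h5 : pr s(u, v) = (φ v, φ u) := by
        simp only [pr, ← h3, ← h4]
      rw [h5] at h2
      exact h2.symm
  · have h2 : (φ u).1 = (φ v).1 := Subtype.ext huv
    simp only [h2] at h
    exact hφ (Prod.ext h2 ((σ _).injective h))

/-- If `2 Δ + 1` is a prime number, the strong chromatic number is at most `2 Δ`. -/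
theorem strong_two_mul {V : Type*} [Fintype V] [DecidableEq V] (G : SimpleGraph V)
    [DecidableRel G.Adj] (hΔ : 1 ≤ G.maxDegree) (hp : (2 * G.maxDegree + 1).Prime)
    {ι : Type*} [DecidableEq ι] (f : V → ι)
    (hf : ∀ i, (Finset.univ.filter (fun v => f v = i)).card ≤ 2 * G.maxDegree) :
    ∃ c : V → Fin (2 * G.maxDegree), (∀ u v, G.Adj u v → c u ≠ c v) ∧
      (∀ u v, f u = f v → c u = c v → u = v) := by
  refine strong_of_prime G (2 * G.maxDegree + 1) (2 * G.maxDegree) hp (by omega) (by omega) ?_ f hf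
  intro u v _
  have h1 := G.degree_le_maxDegree u
  have h2 := G.degree_le_maxDegree v
  omega

end Pool.Agent.H13.SC
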