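import Pool.Agent.H93.SC.Targets

/-!
V3, V3b: lifting algebraic independence from the residue field of a discrete valuation
(MP_f2954d_ag).
-/

set_option autoImplicit false

namespace SC.H13

open SC

variable {k K : Type} [Field k] [Field K] [Algebra k K]

lemma unit_ord (v : DV k K) (a : v.vs) (h : IsLocalRing.residue v.vs a ≠ 0) :
    (a : K) ≠ 0 ∧ v.ord (a : K) = 0 := by
  have hu : IsUnit a := by
    by_contra hn
    exact h ((IsLocalRing.residue_eq_zero_iff a).2 ((IsLocalRing.mem_maximalIdeal a).2 hn))
  obtain ⟨u, rfl⟩ := hu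
  have h0 : ((u : v.vs) : K) ≠ 0 := by
    intro h0
    exact u.ne_zero (Subtype.ext h0)
  refine ⟨h0, ?_⟩
  have h1 : ((u : v.vs) : K) * (((u⁻¹ : v.vsˣ) : v.vs) : K) = 1 := by
    rw [← MulMemClass.coe_mul, Units.mul_inv]
    rfl
  have h2 : (((u⁻¹ : v.vsˣ) : v.vs) : K) ≠ 0 := by
    intro h2
    rw [h2, mul_zero] at h1
    exact zero_ne_one h1
  have h3 := v.ord_mul _ _ h0 h2
  rw [h1, v.ord_one] at h3
  have h4 := (v.mem_vs _).1 ((u : v.vs)).2
  have h5 := (v.mem_vs _).1 (((u⁻¹ : v.vsˣ) : v.vs)).2
  omega

lemma coe_algebraMap (v : DV k K) (c : k) : ((algebraMap k v.vs c : v.vs) : K) = algebraMap k K c :=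
  rfl

/-- the inclusion of the valuation ring as an algebra map -/
def incl (v : DV k K) : v.vs →ₐ[k] K where
  toRingHom := v.vs.subtype
  commutes' := fun _ => rfl

lemma red_eq (v : DV k K) (a : v.vs) : v.red (a : K) = IsLocalRing.residue v.vs a := by
  unfold DV.red
  rw [dif_pos ((v.mem_vs _).1 a.2)]

/-- a nonzero polynomial in elements with independent residues has order zero -/
lemma aeval_ord (v : DV k K) {ι : Type} (x : ι → K) (hx : ∀ i, 0 ≤ v.ord (x i))
    (hr : AlgebraicIndependent k (fun i => v.red (x i))) (Q : MvPolynomial ι k) (hQ : Q ≠ 0) :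
    MvPolynomial.aeval x Q ≠ 0 ∧ v.ord (MvPolynomial.aeval x Q) = 0 := by
  let a : ι → v.vs := fun i => ⟨x i, hx i⟩
  have h1 : MvPolynomial.aeval x Q = ((MvPolynomial.aeval a Q : v.vs) : K) := by
    have := (MvPolynomial.comp_aeval a (incl v))
    have h2 := DFunLike.congr_fun this Q
    exact h2.symm
  have h3 : IsLocalRing.residue v.vs (MvPolynomial.aeval a Q) =
      MvPolynomial.aeval (fun i => v.red (x i)) Q := by
    have h4 := DFunLike.congr_fun (MvPolynomial.comp_aeval a
      (IsScalarTower.toAlgHom k v.vs v.Res)) Q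
    have h5 : (fun i => (IsScalarTower.toAlgHom k v.vs v.Res) (a i)) = fun i => v.red (x i) := by
      funext i
      exact (red_eq v (a i)).symm
    rw [h5] at h4
    exact h4
  rw [h1]
  apply unit_ord
  rw [h3]
  intro h0
  exact hQ ((algebraicIndependent_iff.1 hr) Q h0)

/-- V3 -/
theorem v3 : T_V3 := by
  intro k K _ _ _ v ι x t hx hr ht hto
  have hind : AlgebraicIndependent k x := by
    rw [algebraicIndependent_iff]
    intro Q hQ
    by_contra hne
    exact (aeval_ord v x hx hr Q hne).1 hQ
  rw [hind.option_iff_transcendental t]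
  have hB : ∀ b : Algebra.adjoin k (Set.range x), b ≠ 0 → (b : K) ≠ 0 ∧ v.ord (b : K) = 0 := by
    rintro ⟨b, hb⟩ hne
    have hb' := hb
    rw [Algebra.adjoin_range_eq_range_aeval] at hb'
    obtain ⟨Q, hQ⟩ := hb'
    have hQ' : MvPolynomial.aeval x Q = b := hQ
    have hQ0 : Q ≠ 0 := by
      rintro rfl
      apply hne
      ext
      simpa using hQ'.symm
    have := aeval_ord v x hx hr Q hQ0
    rw [hQ'] at this
    exact this
  have hB' : ∀ b : Algebra.adjoin k (Set.range x), (b : K) ∈ v.vs := by
    intro b
    rw [v.mem_vs]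
    by_cases hb : b = 0
    · rw [hb]
      simp [v.ord_zero]
    · exact (hB b hb).2.ge
  have hvs : ∀ q : Polynomial (Algebra.adjoin k (Set.range x)), Polynomial.aeval t q ∈ v.vs := by
    intro q
    induction q using Polynomial.induction_on' with
    | add p q hp hq =>
      rw [map_add]
      exact v.vs.add_mem _ _ hp hq
    | monomial n b =>
      rw [Polynomial.aeval_monomial]
      exact v.vs.mul_mem _ _ (hB' b) (pow_mem ((v.mem_vs _).2 hto.le) n)
  rw [transcendental_iff]
  have key : ∀ n : ℕ, ∀ p : Polynomial (Algebra.adjoin k (Set.range x)), p.natDegree < n →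
      Polynomial.aeval t p = 0 → p = 0 := by
    intro n
    induction n with
    | zero => intro p hp; exact absurd hp (Nat.not_lt_zero _)
    | succ n ih =>
      intro p hp h0
      have h1 : p = Polynomial.divX p * Polynomial.X + Polynomial.C (p.coeff 0) :=
        (Polynomial.divX_mul_X_add p).symm
      have h2 : Polynomial.aeval t (Polynomial.divX p) * t + ((p.coeff 0 : _) : K) = 0 := by
        rw [h1] at h0
        rw [map_add, map_mul, Polynomial.aeval_X, Polynomial.aeval_C] at h0
        exact h0
      have h3 : p.coeff 0 = 0 := by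
        by_contra hne
        obtain ⟨h4, h5⟩ := hB _ hne
        by_cases h6 : Polynomial.aeval t (Polynomial.divX p) = 0
        · rw [h6, zero_mul, zero_add] at h2
          exact h4 h2
        · have h7 := v.ord_mul _ _ h6 ht
          have h8 : Polynomial.aeval t (Polynomial.divX p) * t = -((p.coeff 0 : _) : K) :=
            eq_neg_of_add_eq_zero_left h2
          rw [h8, v.ord_neg, h5] at h7
          have h9 := (v.mem_vs _).1 (hvs (Polynomial.divX p))
          omega
      have h4 : Polynomial.aeval t (Polynomial.divX p) = 0 := by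
        rw [h3, ZeroMemClass.coe_zero, add_zero] at h2
        exact (mul_eq_zero.1 h2).resolve_right ht
      have h5 : Polynomial.divX p = 0 := by
        by_cases hd : p.natDegree = 0
        · rw [Polynomial.eq_C_of_natDegree_eq_zero hd, Polynomial.divX_C]
        · apply ih _ _ h4
          have := Polynomial.natDegree_divX_eq_natDegree_tsub_one (p := p)
          omega
      rw [h1, h3, h5]
      simp
  exact fun p hp => key (p.natDegree + 1) p (Nat.lt_succ_self _) hp

/-- V3b -/
theorem v3b : T_V3b := by
  intro k K _ _ _ v n hn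
  unfold Algebra.trdeg
  refine ciSup_le' ?_
  rintro ⟨s, hs⟩
  have hex : ∀ y : s, ∃ a : v.vs, IsLocalRing.residue v.vs a = (y : v.Res) := fun y =>
    IsLocalRing.residue_surjective (y : v.Res)
  choose a ha using hex
  obtain ⟨t, ht, hto⟩ := v.ord_surj
  have hr : AlgebraicIndependent k (fun y : s => v.red (a y : K)) := by
    have : (fun y : s => v.red (a y : K)) = fun y : s => (y : v.Res) := by
      funext y
      rw [red_eq, ha]
    rw [this]
    exact hs
  have h1 := v3 k K v s (fun y => (a y : K)) t (fun y => (v.mem_vs _).1 (a y).2) hr ht (by omega)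
  have h2 := h1.cardinalMk_le_trdeg
  rw [hn] at h2
  rw [Cardinal.mk_option] at h2
  push_cast at h2
  exact Cardinal.add_one_le_add_one_iff.1 h2

end SC.H13
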